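import Pool.Agent.Helper55.RG.Spec

/-!
# BZ1: two multiples of `z` by squares without common zeros
-/

set_option autoImplicit false
set_option linter.all false

open FF Polynomial

namespace Pool.Agent.Helper91.RG.BZ1

open Pool.Agent.Helper55.RG Module

section

variable {κ N : Type} [Field κ] [IsAlgClosed κ] [CharZero κ] [Field N] [Algebra κ N] [IsFF κ N]

theorem alg_bij (P : Place κ N) : Function.Bijective (algebraMap κ P.RF) :=
  IsAlgClosed.algebraMap_bijective_of_isIntegral

theorem deg_one (P : Place κ N) : P.deg = 1 := by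
  unfold Place.deg
  have e : κ ≃ₗ[κ] P.RF := LinearEquiv.ofBijective (Algebra.linearMap κ P.RF) (alg_bij P)
  rw [← e.finrank_eq, finrank_self]

theorem reg_sub (P : Place κ N) {x y : N} (hx : P.Reg x) (hy : P.Reg y) : P.Reg (x - y) := by
  rw [sub_eq_add_neg]; exact P.reg_add hx (P.reg_neg hy)

theorem val (P : Place κ N) {x : N} (hx : P.Reg x) :
    ∃ c : κ, x = algebraMap κ N c ∨ 0 < P.ord (x - algebraMap κ N c) := by
  obtain ⟨c, hc⟩ := (alg_bij P).2 (P.red x)
  refine ⟨c, ?_⟩
  rw [P.algebraMap_RF] at hc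
  have h := P.red_sub hx (P.reg_const c)
  rw [hc, sub_self, P.red_eq_zero_iff (reg_sub P hx (P.reg_const c))] at h
  rcases h with h | h
  · left; exact sub_eq_zero.1 h
  · right; exact h

theorem reg_aeval (P : Place κ N) {t : N} (ht : P.Reg t) (q : κ[X]) : P.Reg (aeval t q) := by
  induction q using Polynomial.induction_on' with
  | add p q hp hq => rw [map_add]; exact P.reg_add hp hq
  | monomial n c =>
    rw [aeval_monomial]
    apply P.reg_mul (P.reg_const c)
    induction n with
    | zero => rw [pow_zero]; exact P.reg_one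
    | succ n ih => rw [pow_succ]; exact P.reg_mul ih ht

theorem trans_sub_ne {t : N} (ht : Transcendental κ t) (a : κ) : t - algebraMap κ N a ≠ 0 := by
  intro h
  apply ht
  rw [sub_eq_zero.1 h]
  exact isAlgebraic_algebraMap a

theorem aeval_ne {t : N} (ht : Transcendental κ t) {s : κ[X]} (hs : s ≠ 0) : aeval t s ≠ 0 := by
  intro h
  exact ht ⟨s, hs, h⟩

theorem reg_of_pos (P : Place κ N) {t : N} {a : κ} (h : 0 < P.ord (t - algebraMap κ N a)) :
    P.Reg t := by
  have h1 : P.Reg (t - algebraMap κ N a) := Or.inr h.le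
  have h2 := P.reg_add h1 (P.reg_const a)
  rwa [sub_add_cancel] at h2

theorem ord_s_pos (P : Place κ N) {t : N} (ht : Transcendental κ t) {a : κ}
    (h : 0 < P.ord (t - algebraMap κ N a)) {s : κ[X]} (hs : s ≠ 0) (hsa : s.eval a = 0) :
    0 < P.ord (aeval t s) := by
  obtain ⟨q, rfl⟩ := dvd_iff_isRoot.2 (show s.IsRoot a from hsa)
  have hq : q ≠ 0 := right_ne_zero_of_mul hs
  have hq0 : aeval t q ≠ 0 := aeval_ne ht hq
  have e : aeval t (X - C a) = t - algebraMap κ N a := by simp
  rw [map_mul, e, P.ord_mul (trans_sub_ne ht a) hq0]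
  have := (P.reg_iff hq0).1 (reg_aeval P (reg_of_pos P h) q)
  omega

/-- half of the divisor -/
noncomputable def hd (z : N) : Place κ N →₀ ℤ := (divisor κ z).mapRange (fun n => n / 2) (by simp)

theorem hd_apply (z : N) (P : Place κ N) : hd z P = P.ord z / 2 := by
  unfold hd; rw [Finsupp.mapRange_apply, divisor_apply]

theorem hd_deg {t : N} (ht : Transcendental κ t) {s : κ[X]} (hs : s ≠ 0) {z : N} (hz : z ≠ 0)
    (h : EvenOff t s z) :
    - (ddeg (polar (k := κ) (aeval t s)⁻¹) + ddeg (polar (k := κ) t)) ≤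
      2 * ddeg (hd (κ := κ) z) := by
  have h1 : divisor κ z ≤ hd (κ := κ) z + hd (κ := κ) z +
      (polar (k := κ) (aeval t s)⁻¹ + polar (k := κ) t) := by
    intro P
    simp only [Finsupp.add_apply, hd_apply, divisor_apply, polar_apply, P.ord_inv]
    by_cases he : Even (P.ord z)
    · obtain ⟨r, hr⟩ := he
      have h3 : (0 : ℤ) ≤ max (- -P.ord (aeval t s)) 0 := le_max_right _ _
      have h4 : (0 : ℤ) ≤ max (-P.ord t) 0 := le_max_right _ _
      omega
    · have h2 : 1 ≤ max (- -P.ord (aeval t s)) 0 + max (-P.ord t) 0 := by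
        by_cases hr : P.Reg t
        · obtain ⟨a, ha⟩ := val P hr
          have ha' : 0 < P.ord (t - algebraMap κ N a) := by
            rcases ha with ha | ha
            · exact absurd (sub_eq_zero.2 ha) (trans_sub_ne ht a)
            · exact ha
          have hsa : s.eval a = 0 := by
            by_contra hc
            exact he (h P a ha' hc)
          have h5 := ord_s_pos P ht ha' hs hsa
          have h4 : (0 : ℤ) ≤ max (-P.ord t) 0 := le_max_right _ _
          have h6 : - -P.ord (aeval t s) ≤ max (- -P.ord (aeval t s)) 0 := le_max_left _ _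
          omega
        · have h5 : P.ord t < 0 := by
            by_contra hc
            exact hr (Or.inr (not_lt.1 hc))
          have h3 : (0 : ℤ) ≤ max (- -P.ord (aeval t s)) 0 := le_max_right _ _
          have h6 : -P.ord t ≤ max (-P.ord t) 0 := le_max_left _ _
          omega
      omega
  have h2 := ddeg_mono h1
  rw [ddeg_divisor, ddeg_add, ddeg_add, ddeg_add] at h2
  omega

theorem mem_of {z x y : N} {n : ℕ} {t : N} (hz : z ≠ 0) (hx : x ≠ 0) (hy : y ≠ 0)
    (h1 : x ∈ LL (hd (κ := κ) z + n • polar (k := κ) t))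
    (h2 : y ∈ LL (hd (κ := κ) z + n • polar (k := κ) t)) :
    x * y * z ∈ LL ((2 * n) • polar (k := κ) t) := by
  right
  intro P
  have h3 := (h1.resolve_left hx) P
  have h4 := (h2.resolve_left hy) P
  rw [P.ord_mul (mul_ne_zero hx hy) hz, P.ord_mul hx hy]
  simp only [Finsupp.add_apply, Finsupp.smul_apply, hd_apply, nsmul_eq_mul] at h3 h4 ⊢
  have h5 : 2 * (P.ord z / 2) ≤ P.ord z := Int.mul_ediv_self_le (by norm_num)
  push_cast
  have h6 : (2 * (n : ℤ)) * polar (k := κ) t P = (n : ℤ) * polar (k := κ) t P + (n : ℤ) * polar (k := κ) t P := by ring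
  rw [h6]
  omega

end

theorem main : S_BZ1 := by
  intro κ N _ _ _ _ _ _ t ht s hs
  obtain ⟨γ, N0, hR1, hR2⟩ := riemann κ N
  set c0 : ℤ := ddeg (polar (k := κ) (aeval t s)⁻¹) + ddeg (polar (k := κ) t) with hc0
  have hH := ddeg_polar_pos (k := κ) ht
  have hc00 : 0 ≤ c0 := by
    have h1 := ddeg_nonneg (polar_nonneg (k := κ) (aeval t s)⁻¹)
    omega
  set n : ℕ := (c0 + |γ| + |N0| + 2).toNat with hn
  have hn' : (n : ℤ) = c0 + |γ| + |N0| + 2 := by
    rw [hn, Int.toNat_of_nonneg]
    have := abs_nonneg γ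
    have := abs_nonneg N0
    omega
  refine ⟨2 * n, ?_⟩
  intro z hz hev
  set E : Place κ N →₀ ℤ := hd (κ := κ) z + n • polar (k := κ) t with hE
  have hdeg := hd_deg ht hs hz hev
  have hEdeg : N0 + 1 ≤ ddeg E ∧ γ + 1 ≤ ddeg E := by
    rw [hE, ddeg_add, ddeg_nsmul]
    have h1 : (n : ℤ) * 1 ≤ n * ddeg (polar (k := κ) t) :=
      mul_le_mul_of_nonneg_left (by omega) (by positivity)
    have h2 := le_abs_self γ
    have h3 := le_abs_self N0
    have h4 := abs_nonneg γ
    have h5 := abs_nonneg N0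
    constructor <;> omega
  have hellE := hR2 E (by omega)
  obtain ⟨x₁, hx₁, hx₁0⟩ := exists_ne_zero_of_ell_pos (D := E) (by omega)
  -- the places to avoid
  have hfin : {P : Place κ N | P.ord (x₁ ^ 2 * z) ≠ 0}.Finite := finite_support _
  classical
  let Z : Finset (Place κ N) := hfin.toFinset
  let W : Place κ N → Submodule κ (LL E) := fun P =>
    (LL (E - Finsupp.single P 1)).comap (LL E).subtype
  have hWtop : ∀ P, W P ≠ ⊤ := by
    intro P hP
    have h1 : ell (E - Finsupp.single P 1) = ell E - 1 := by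
      rw [hR2 (E - Finsupp.single P 1) (by
        rw [ddeg_sub, ddeg_single, deg_one]; push_cast; omega), hellE, ddeg_sub, ddeg_single, deg_one]
      push_cast; ring
    have h2 : LL E ≤ LL (E - Finsupp.single P 1) := by
      intro f hf
      have : (⟨f, hf⟩ : LL E) ∈ W P := by rw [hP]; trivial
      exact this
    have h3 : ell E ≤ ell (E - Finsupp.single P 1) := by
      unfold ell
      exact_mod_cast Submodule.finrank_mono h2
    omega
  have hbot : (⊥ : Submodule κ (LL E)) ≠ ⊤ := by
    intro h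
    have : (⟨x₁, hx₁⟩ : LL E) ∈ (⊥ : Submodule κ (LL E)) := by rw [h]; trivial
    rw [Submodule.mem_bot] at this
    exact hx₁0 (congrArg Subtype.val this)
  have hkey := Subspace.biUnion_ne_univ_of_top_notMem
    (s := insert (⊥ : Submodule κ (LL E)) (Z.image W)) (by
      intro hmem
      rw [Finset.mem_insert, Finset.mem_image] at hmem
      rcases hmem with h | ⟨P, -, hP⟩
      · exact hbot h.symm
      · exact hWtop P hP)
  rw [Set.ne_univ_iff_exists_notMem] at hkey
  obtain ⟨⟨x₂, hx₂⟩, hx₂n⟩ := hkey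
  simp only [Set.mem_iUnion, not_exists, SetLike.mem_coe] at hx₂n
  have hx₂0 : x₂ ≠ 0 := by
    intro h0
    apply hx₂n ⊥ (Finset.mem_insert_self _ _)
    rw [Submodule.mem_bot]
    exact Subtype.ext h0
  have hx₂W : ∀ P ∈ Z, x₂ ∉ LL (E - Finsupp.single P 1) := by
    intro P hP hmem
    exact hx₂n (W P) (Finset.mem_insert_of_mem (Finset.mem_image_of_mem W hP)) hmem
  refine ⟨x₁, x₂, hx₁0, hx₂0, ?_, ?_, ?_, ?_⟩
  · rw [pow_two]; exact mem_of hz hx₁0 hx₁0 hx₁ hx₁
  · rw [pow_two]; exact mem_of hz hx₂0 hx₂0 hx₂ hx₂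
  · exact mem_of hz hx₁0 hx₂0 hx₁ hx₂
  · rintro P a hPa hsa ⟨h1, h2⟩
    have hPZ : P ∈ Z := hfin.mem_toFinset.2 h1.ne'
    apply hx₂W P hPZ
    right
    intro Q
    have h3 := (hx₂.resolve_left hx₂0) Q
    rw [Finsupp.sub_apply]
    by_cases hQ : P = Q
    · subst hQ
      rw [Finsupp.single_eq_same]
      have hev' := hev P a hPa hsa
      obtain ⟨r, hr⟩ := hev'
      have hreg := reg_of_pos P hPa
      have hpol : polar (k := κ) t P = 0 := by
        rw [polar_apply]
        have ht0 : t ≠ 0 := by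
          rintro rfl
          exact ht isAlgebraic_zero
        have := (P.reg_iff ht0).1 hreg
        exact max_eq_right (by omega)
      rw [P.ord_mul (pow_ne_zero _ hx₂0) hz, P.ord_pow] at h2
      have h5 : E P = P.ord z / 2 := by
        rw [hE, Finsupp.add_apply, Finsupp.smul_apply, hpol, hd_apply]
        simp
      rw [h5]
      push_cast at h2
      omega
    · rw [Finsupp.single_eq_of_ne (by first | exact hQ | exact Ne.symm hQ)]
      omega

end Pool.Agent.Helper91.RG.BZ1
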